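import Pool.Agent.H61.KU.TB

/-!
# Faces of dimension at least 5 contain minimal faces (B11)
-/

set_option autoImplicit false

open Topology Set
open Pool.Agent.H59 Pool.Agent.H64.LB Pool.Agent.H61.KU

namespace Pool.Agent.H39.KU

theorem pf_b1 (hD : T_DI5) (hL : T_LFT) (h0 : T_CR0) (hM : T_MNF) : T_B1 := by
  intro ι _ _ f v hS F hF hrk
  refine hM ι f v F hF fun hsub => ?_
  obtain ⟨n, hn⟩ : ∃ n, rk (hom v) F = n + 1 := ⟨rk (hom v) F - 1, by omega⟩
  have hn5 : 5 ≤ n := by omega
  have hne : F.Nonempty := by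
    rw [Finset.nonempty_iff_ne_empty]
    rintro rfl
    have : rk (hom v) ∅ = 0 := by
      have h1 : sp (hom v) ∅ = ⊥ := by
        rw [sp, Finset.coe_empty, image_empty, Submodule.span_empty]
      rw [rk, h1, finrank_bot]
    omega
  obtain ⟨i0, hi0⟩ := hne
  have hp : v i0 ∈ cv v F := subset_convexHull ℝ _ ⟨i0, hi0, rfl⟩
  obtain ⟨j, hj, -, -, -, -, ⟨y0, hy0⟩⟩ := h0 ι v F n (v i0) hn hp
  have hjc : Continuous j := AffineMap.continuous_of_finiteDimensional j
  let s : (Fin 5 → ℝ) → (Fin n → ℝ) := fun x i =>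
    y0 i + if h : i.val < 5 then x ⟨i.val, h⟩ else 0
  have hs : Continuous s := by
    refine continuous_pi fun i => ?_
    simp only [s]
    split_ifs with h
    · fun_prop
    · fun_prop
  have hsi : Function.Injective s := by
    intro x y hxy
    funext k
    have h1 := congrFun hxy ⟨k.val, by omega⟩
    simp only [s, k.isLt, dite_true] at h1
    exact add_left_cancel h1
  have hs0 : s 0 = y0 := by
    funext i
    simp only [s]
    split_ifs <;> simp
  let U : Set (Fin 5 → ℝ) := s ⁻¹' interior (j ⁻¹' cv v F)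
  have hU : IsOpen U := isOpen_interior.preimage hs
  have h0U : (0 : Fin 5 → ℝ) ∈ U := by
    have h1 : s 0 ∈ interior (j ⁻¹' cv v F) := by
      rw [hs0]
      exact hy0
    exact h1
  obtain ⟨ψ, hψ⟩ := hL f hS.inj ↥U ⟨fun x => j (s x.1), by fun_prop⟩ fun t => by
    have h1 : s t.1 ∈ j ⁻¹' cv v F := interior_subset t.2
    exact hsub h1
  classical
  let g : (Fin 5 → ℝ) → PN 2 := fun x => if h : x ∈ U then ψ ⟨x, h⟩ else ψ ⟨0, h0U⟩
  have hg : ∀ (x : Fin 5 → ℝ) (h : x ∈ U), g x = ψ ⟨x, h⟩ := fun x h => by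
    simp only [g, h, dite_true]
  refine hD U g hU ⟨0, h0U⟩ ?_ ?_
  · rw [continuousOn_iff_continuous_domRestrict]
    have : U.domRestrict g = ψ := by
      funext x
      exact hg x.1 x.2
    rw [this]
    exact ψ.continuous
  · intro x hx y hy hxy
    rw [hg x hx, hg y hy] at hxy
    have h1 := congrArg f hxy
    rw [hψ, hψ] at h1
    exact hsi (hj h1)

end Pool.Agent.H39.KU
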