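import Pool.Agent.H61.KU.TB

/-!
# A 4-dimensional face which contains a minimal face contains two (B14)
-/

set_option autoImplicit false

open Topology Set
open Pool.Agent.H59 Pool.Agent.H64.LB Pool.Agent.H61.KU
open scoped unitInterval

namespace Pool.Agent.H39.KU

theorem exists_small {V : Type} [NormedAddCommGroup V] [NormedSpace ℝ V] {K : Set V}
    (h0 : (0 : V) ∈ interior K) (x : V) : ∃ t : ℝ, 0 < t ∧ t • x ∈ K := by
  have h1 : Filter.Tendsto (fun t : ℝ => t • x) (𝓝 0) (𝓝 (0 : V)) := by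
    have : Continuous fun t : ℝ => t • x := by fun_prop
    simpa using this.tendsto 0
  have h2 := h1.eventually (isOpen_interior.mem_nhds h0)
  have h3 : ∀ᶠ t in 𝓝[>] (0 : ℝ), t • x ∈ interior K := h2.filter_mono nhdsWithin_le_nhds
  obtain ⟨t, ht, ht'⟩ := (h3.and self_mem_nhdsWithin).exists
  exact ⟨t, ht', interior_subset ht⟩

theorem hom_mem {ι : Type} (v : ι → E8) (F : Finset ι) {y : E8} (hy : y ∈ cv v F) :
    (y, (1 : ℝ)) ∈ sp (hom v) F := by
  have h1 : Convex ℝ {y : E8 | (y, (1 : ℝ)) ∈ sp (hom v) F} := by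
    intro a ha b hb s t _ _ hst
    have h2 := (sp (hom v) F).add_mem ((sp (hom v) F).smul_mem s ha)
      ((sp (hom v) F).smul_mem t hb)
    have h3 : s • (a, (1 : ℝ)) + t • (b, (1 : ℝ)) = (s • a + t • b, (1 : ℝ)) := by
      ext1
      · rfl
      · change s • (1 : ℝ) + t • (1 : ℝ) = 1
        simp [hst]
    rw [h3] at h2
    exact h2
  refine convexHull_min ?_ h1 hy
  rintro _ ⟨i, hi, rfl⟩
  exact Submodule.subset_span ⟨i, hi, rfl⟩

theorem closedEmb {V : Type} [NormedAddCommGroup V] [NormedSpace ℝ V] [FiniteDimensional ℝ V]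
    (J : V →ᵃ[ℝ] E8) (hJ : Function.Injective J) : IsClosedEmbedding J := by
  have h1 : IsClosedEmbedding J.linear :=
    LinearMap.isClosedEmbedding_of_injective
      (LinearMap.ker_eq_bot.2 ((AffineMap.linear_injective_iff J).2 hJ))
  have h2 : (J : V → E8) = (Homeomorph.addRight (J 0)) ∘ J.linear := by
    funext x
    have := J.map_vadd (0 : V) x
    simpa using this
  rw [h2]
  exact (Homeomorph.isClosedEmbedding _).comp h1

theorem pf_b3 (hHM : T_HM) (hO : T_CON) (hSP : T_SPH) (_hP : T_PNT) (hL : T_LFT)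
    (_hG : T_GAU) (h0 : T_CR0) (hU : T_SUP) (hV : T_FCV) (hTO : T_TOP) (hP1 : T_P1)
    (hM : T_MNF) (hN : T_NUL) (hFa : T_FAC) : T_B3 := by
  intro ι _ _ f v hS T F hT hF hrk hTF
  by_contra hno
  push Not at hno
  obtain ⟨hT4, -⟩ := hP1 ι f v hS T hT
  obtain ⟨hTface, hTn, hTm⟩ := hT
  have hT : EE f v T := ⟨hTface, hTn, hTm⟩
  have hrkmono : ∀ G G' : Finset ι, IsFace (hom v) G → G ⊂ G' → rk (hom v) G < rk (hom v) G' :=
    (hFa ι (E8 × ℝ) (hom v)).2.2.2.2.1
  have hTss : T ⊂ F := by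
    refine lt_of_le_of_ne hTF fun h => ?_
    rw [h] at hT4
    omega
  -- (1)
  have h1 : ∀ G, IsFace (hom v) G → G ⊂ F → G ≠ T → cv v G ⊆ range f := by
    intro G hG hGF hGT
    by_contra hc
    obtain ⟨T', hT', hT'G⟩ := hM ι f v G hG hc
    have h2 := hno T' hT' (hT'G.trans hGF.1)
    rw [h2] at hT'G
    have h3 := hrkmono T G hTface (lt_of_le_of_ne hT'G (Ne.symm hGT))
    have h4 := hrkmono G F hG hGF
    omega
  -- (2)
  obtain ⟨p, hpT, hpf⟩ := not_subset.1 hTn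
  obtain ⟨j, hj, hj0, hjr, hjc, hjv, hji⟩ := h0 ι v T 3 p hT4 hpT
  have hK0 : (0 : Fin 3 → ℝ) ∈ interior (j ⁻¹' cv v T) := by
    by_contra hc
    obtain ⟨G, hG, hGT, hpG⟩ := hU ι (Fin 3 → ℝ) v T j hTface hj hjr hji 0 (by rw [hj0]; exact hpT)
      hc
    rw [hj0] at hpG
    exact hpf (hTm G hG hGT hpG)
  obtain ⟨l, hl0, hlT⟩ := hTface
  obtain ⟨hVa, -, hVc, hVd, hVe⟩ := hV ι v
  obtain ⟨hVa1, hVa2⟩ := hVa T l hl0 hlT
  have hFne : F.Nonempty := by
    rw [Finset.nonempty_iff_ne_empty]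
    rintro rfl
    have : rk (hom v) ∅ = 0 := by
      have h1 : sp (hom v) ∅ = ⊥ := by
        rw [sp, Finset.coe_empty, image_empty, Submodule.span_empty]
      rw [rk, h1, finrank_bot]
    omega
  obtain ⟨w, hwF, hwG⟩ := hVe F hF hFne
  have hTface : IsFace (hom v) T := ⟨l, hl0, hlT⟩
  have hw0 : 0 < l (w, 1) := by
    have h2 := hVa1 w ((hVd F).1 hwF)
    refine lt_of_le_of_ne h2 fun h => ?_
    exact hwG T hTface hTss ((hVa2 w ((hVd F).1 hwF)).1 h.symm)
  -- `l (j x, 1) = 0`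
  have hlj : ∀ x, l (j x, 1) = 0 := by
    intro x
    obtain ⟨t, ht, htx⟩ := exists_small hK0 x
    have h2 : ∀ y, y ∈ j ⁻¹' cv v T → l (j y, 1) = 0 := fun y hy =>
      (hVa2 _ ((hVd T).1 hy)).2 hy
    have h3 := h2 _ htx
    have h4 := h2 0 (interior_subset hK0)
    have h5 : j (t • x) = t • (j x - j 0) + j 0 := by
      have e1 := j.map_vadd (0 : Fin 3 → ℝ) (t • x)
      have e2 := j.map_vadd (0 : Fin 3 → ℝ) x
      simp only [vadd_eq_add, add_zero] at e1 e2
      rw [e1, e2, map_smul]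
      simp
    have h6 : (j (t • x), (1 : ℝ)) = t • ((j x, (1 : ℝ)) - (j 0, 1)) + (j 0, 1) := by
      rw [h5]
      ext1
      · simp
      · simp
    rw [h6, map_add, map_smul, map_sub, h4, sub_zero, add_zero, smul_eq_mul] at h3
    exact (mul_eq_zero.1 h3).resolve_left ht.ne'
  have hlp : l (p, 1) = 0 := by rw [← hj0]; exact hlj 0
  -- the affine map `J`
  let J : ((Fin 3 → ℝ) × ℝ) →ᵃ[ℝ] E8 :=
    j.comp (LinearMap.fst ℝ (Fin 3 → ℝ) ℝ).toAffineMap +
      ((LinearMap.snd ℝ (Fin 3 → ℝ) ℝ).smulRight (w - p)).toAffineMap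
  have hJ : ∀ x s, J (x, s) = j x + s • (w - p) := fun x s => rfl
  have hlJ : ∀ x s, l (J (x, s), 1) = s * l (w, 1) := by
    intro x s
    have h2 : (J (x, s), (1 : ℝ)) = (j x, (1 : ℝ)) + s • ((w, (1 : ℝ)) - (p, 1)) := by
      rw [hJ]
      ext1
      · simp
      · simp
    rw [h2, map_add, map_smul, map_sub, hlp, hlj, sub_zero, zero_add, smul_eq_mul]
  have hJi : Function.Injective J := by
    rintro ⟨x, s⟩ ⟨x', s'⟩ h
    have h2 := hlJ x s
    rw [h, hlJ] at h2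
    have h3 : s' = s := mul_right_cancel₀ hw0.ne' h2
    subst h3
    rw [hJ, hJ] at h
    rw [hj (add_right_cancel h)]
  have hJc : Continuous J := AffineMap.continuous_of_finiteDimensional J
  have hJlin : Function.Injective J.linear := (AffineMap.linear_injective_iff J).2 hJi
  have hJ0 : J 0 = p := by
    have : J (0, 0) = p := by rw [hJ, hj0]; simp
    exact this
  have hJadd : ∀ q, J q = J.linear q + p := by
    intro q
    have := J.map_vadd (0 : (Fin 3 → ℝ) × ℝ) q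
    simp only [vadd_eq_add, add_zero] at this
    rw [this, hJ0]
  -- `cv v F ⊆ range J`
  have hJF : cv v F ⊆ range J := by
    let Jh : (((Fin 3 → ℝ) × ℝ) × ℝ) →ₗ[ℝ] (E8 × ℝ) :=
      LinearMap.prod (J.linear.comp (LinearMap.fst ℝ ((Fin 3 → ℝ) × ℝ) ℝ) +
        (LinearMap.snd ℝ ((Fin 3 → ℝ) × ℝ) ℝ).smulRight p)
        (LinearMap.snd ℝ ((Fin 3 → ℝ) × ℝ) ℝ)
    have hJh : ∀ q t, Jh (q, t) = (J.linear q + t • p, t) := fun q t => rfl
    have hJhi : Function.Injective Jh := by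
      rintro ⟨q, t⟩ ⟨q', t'⟩ h
      rw [hJh, hJh, Prod.mk.injEq] at h
      obtain ⟨h2, h3⟩ := h
      subst h3
      rw [hJlin (add_right_cancel h2)]
    have hpm : (p, (1 : ℝ)) ∈ sp (hom v) F := hom_mem v F (hVc T F hTF hpT)
    have hwm : (w, (1 : ℝ)) ∈ sp (hom v) F := hom_mem v F hwF
    have hjm : ∀ x, (j x, (1 : ℝ)) ∈ sp (hom v) F := by
      intro x
      obtain ⟨t, ht, htx⟩ := exists_small hK0 x
      have h3 : (j (t • x), (1 : ℝ)) ∈ sp (hom v) F := hom_mem v F (hVc T F hTF htx)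
      have h5 : j (t • x) = t • (j x - p) + p := by
        have e1 := j.map_vadd (0 : Fin 3 → ℝ) (t • x)
        have e2 := j.map_vadd (0 : Fin 3 → ℝ) x
        simp only [vadd_eq_add, add_zero] at e1 e2
        rw [e1, e2, map_smul, hj0]
        simp
      have h6 : (j x, (1 : ℝ)) = t⁻¹ • ((j (t • x), (1 : ℝ)) - (p, 1)) + (p, 1) := by
        rw [h5]
        ext1
        · simp [smul_smul, inv_mul_cancel₀ ht.ne']
        · simp
      rw [h6]
      exact (sp (hom v) F).add_mem ((sp (hom v) F).smul_mem _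
        ((sp (hom v) F).sub_mem h3 hpm)) hpm
    have hle : LinearMap.range Jh ≤ sp (hom v) F := by
      rintro _ ⟨⟨⟨x, s⟩, t⟩, rfl⟩
      have h3 : Jh ((x, s), t) = ((j x, (1 : ℝ)) - (p, 1)) + s • ((w, (1 : ℝ)) - (p, 1)) +
          t • (p, (1 : ℝ)) := by
        have h4 := hJadd (x, s)
        rw [hJ] at h4
        have h5 : J.linear (x, s) = j x + s • (w - p) - p := by rw [h4]; simp
        rw [hJh, h5]
        ext1
        · simp only [Prod.fst_add, Prod.fst_sub, Prod.smul_fst]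
          abel
        · simp
      rw [h3]
      exact (sp (hom v) F).add_mem ((sp (hom v) F).add_mem
        ((sp (hom v) F).sub_mem (hjm x) hpm) ((sp (hom v) F).smul_mem _
          ((sp (hom v) F).sub_mem hwm hpm))) ((sp (hom v) F).smul_mem _ hpm)
    have heq : LinearMap.range Jh = sp (hom v) F := by
      refine Submodule.eq_of_le_of_finrank_eq hle ?_
      rw [LinearMap.finrank_range_of_inj hJhi]
      change _ = rk (hom v) F
      rw [hrk]
      simp
    intro y hy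
    have h3 : (y, (1 : ℝ)) ∈ LinearMap.range Jh := by rw [heq]; exact hom_mem v F hy
    obtain ⟨⟨q, t⟩, h4⟩ := h3
    rw [hJh, Prod.mk.injEq] at h4
    obtain ⟨h5, rfl⟩ := h4
    refine ⟨q, ?_⟩
    rw [hJadd, ← h5, one_smul]
  -- the body `K`
  let K : Set ((Fin 3 → ℝ) × ℝ) := J ⁻¹' cv v F
  have hKc : IsCompact K := (closedEmb J hJi).isCompact_preimage (hVd F).2
  have hKv : Convex ℝ K := (convex_convexHull ℝ _).affine_preimage J
  have hK2 : ∀ q ∈ K, 0 ≤ q.2 := by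
    rintro ⟨x, s⟩ hq
    have h2 := hVa1 _ ((hVd F).1 hq)
    rw [hlJ] at h2
    exact nonneg_of_mul_nonneg_left h2 hw0
  have hKs : {x : Fin 3 → ℝ | (x, (0 : ℝ)) ∈ K} = j ⁻¹' cv v T := by
    ext x
    have h2 : J (x, 0) = j x := by rw [hJ]; simp
    constructor
    · intro hx
      have h3 : j x ∈ cv v F := by rw [← h2]; exact hx
      exact (hVa2 _ ((hVd F).1 h3)).1 (hlj x)
    · intro hx
      change J (x, 0) ∈ cv v F
      rw [h2]
      exact hVc T F hTF hx
  have hJw : J (0, 1) = w := by rw [hJ, hj0]; simp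
  have h01 : ((0 : Fin 3 → ℝ), (1 : ℝ)) ∈ K := by
    change J (0, 1) ∈ cv v F
    rw [hJw]; exact hwF
  have hKi : (interior K).Nonempty := by
    have h00 : ((0 : Fin 3 → ℝ), (0 : ℝ)) ∈ K := by
      have : (0 : Fin 3 → ℝ) ∈ {x : Fin 3 → ℝ | (x, (0 : ℝ)) ∈ K} := by
        rw [hKs]; exact interior_subset hK0
      exact this
    rw [hKv.interior_nonempty_iff_affineSpan_eq_top,
      AffineSubspace.affineSpan_eq_top_iff_vectorSpan_eq_top_of_nonempty ℝ _ _ ⟨_, h01⟩,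
      eq_top_iff]
    rintro ⟨x, s⟩ -
    obtain ⟨t, ht, htx⟩ := exists_small hK0 x
    have h2 : (t • x, (0 : ℝ)) ∈ K := by
      have : t • x ∈ {x : Fin 3 → ℝ | (x, (0 : ℝ)) ∈ K} := by
        rw [hKs]; exact htx
      exact this
    have h3 := vsub_mem_vectorSpan ℝ h2 h00
    have h4 := vsub_mem_vectorSpan ℝ h01 h00
    have h5 : (x, s) = t⁻¹ • ((t • x, (0 : ℝ)) -ᵥ ((0 : Fin 3 → ℝ), (0 : ℝ))) +
        s • (((0 : Fin 3 → ℝ), (1 : ℝ)) -ᵥ ((0 : Fin 3 → ℝ), (0 : ℝ))) := by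
      ext1
      · simp [smul_smul, inv_mul_cancel₀ ht.ne']
      · simp
    rw [h5]
    exact (vectorSpan ℝ K).add_mem ((vectorSpan ℝ K).smul_mem _ h3)
      ((vectorSpan ℝ K).smul_mem _ h4)
  have hK1 : ((0 : Fin 3 → ℝ), (1 : ℝ)) ∈ interior K := by
    by_contra hc
    obtain ⟨G, hG, hGF, hwG'⟩ := hU ι ((Fin 3 → ℝ) × ℝ) v F J hF hJi hJF hKi (0, 1) h01 hc
    rw [hJw] at hwG'
    exact hwG G hG hGF hwG'
  -- the null-homotopy
  obtain ⟨H, hH0, ⟨w0, hH1⟩, hH⟩ := hN K hKc hKv hK2 (by rw [hKs]; exact hK0) hK1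
  rw [hKs] at hH0 hH
  have hrange : ∀ z : I × Sph 2, J (H z) ∈ range f := by
    rintro ⟨t, u⟩
    obtain ⟨h2, h3⟩ := hH t u
    have h4 : H (t, u) ∈ K := hKc.isClosed.frontier_subset h2
    obtain ⟨G, hG, hGF, hGm⟩ := hU ι ((Fin 3 → ℝ) × ℝ) v F J hF hJi hJF hKi _ h4 h2.2
    by_cases hGT : G = T
    · subst hGT
      have h5 := (hVa2 _ ((hVd G).1 hGm)).2 hGm
      have h6 : (H (t, u)).2 = 0 := by
        have h7 := hlJ (H (t, u)).1 (H (t, u)).2
        rw [Prod.mk.eta, h5] at h7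
        exact ((mul_eq_zero.1 h7.symm).resolve_right hw0.ne')
      have h8 : H (t, u) = ((H (t, u)).1, (0 : ℝ)) := by
        ext1
        · rfl
        · exact h6
      have h9 : J (H (t, u)) = j (H (t, u)).1 := by
        rw [h8, hJ]; simp
      have h10 : (H (t, u)).1 ∉ interior (j ⁻¹' cv v G) := fun hc => h3 _ hc h8
      rw [h9] at hGm ⊢
      obtain ⟨G', hG', hGG', hm⟩ := hU ι (Fin 3 → ℝ) v G j hTface hj hjr hji _ hGm h10
      exact hTm G' hG' hGG' hm
    · exact h1 G hG hGF hGT hGm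
  obtain ⟨h, hh⟩ := hL f hS.inj (I × Sph 2) ⟨fun z => J (H z), hJc.comp H.continuous⟩ hrange
  have hh' : ∀ z, f (h z) = J (H z) := hh
  let α : C(Sph 2, PN 2) := h.comp ⟨fun u => (0, u), by fun_prop⟩
  have hα : ∀ u, f (α u) = j (rad (j ⁻¹' cv v T) u.1) := by
    intro u
    have h2 : f (α u) = J (H (0, u)) := hh' (0, u)
    rw [h2, hH0, hJ]; simp
  -- the supporting functional
  let lc : E8 →L[ℝ] ℝ := LinearMap.toContinuousLinearMap
    (l.comp (LinearMap.inl ℝ E8 ℝ))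
  let ξ : E8 := (InnerProductSpace.toDual ℝ E8).symm lc
  have hξ : ∀ y : E8, inner ℝ ξ y = l (y, 1) - l (0, 1) := by
    intro y
    have h2 : inner ℝ ξ y = lc y := InnerProductSpace.toDual_symm_apply
    rw [h2]
    change l (y, 0) = _
    rw [← map_sub]
    congr 1
    ext1 <;> simp
  have hinj := hTO ι f v hS 2 j (j ⁻¹' cv v T) ξ (-l (0, 1)) α hj hjc hjv hK0
    (by rw [hj0]; exact hpf)
    (fun y hy => by rw [hξ, hlj]; ring)
    (fun x => by
      rw [hξ]
      have := hVa1 (f x) (hS.hull x)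
      linarith)
    (fun x hx => by
      rw [hξ] at hx
      have h2 : l (f x, 1) = 0 := by linarith
      have h3 := (hVa2 (f x) (hS.hull x)).1 h2
      obtain ⟨y, hy⟩ := hjr h3
      have h4 : j y ∈ cv v T := by rw [hy]; exact h3
      exact ⟨y, h4, hy⟩)
    hα 2
  -- contradiction
  have : Nonempty (Sph 2) := ⟨⟨fun _ => 1, fun h => one_ne_zero (congrFun h 0)⟩⟩
  obtain ⟨u0⟩ := ‹Nonempty (Sph 2)›
  have hconst : ∀ u, h (1, u) = h (1, u0) := by
    intro u
    apply hS.inj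
    rw [hh', hh', hH1, hH1]
  have hhom : α.Homotopic (ContinuousMap.const (Sph 2) (h (1, u0))) :=
    ⟨{ toContinuousMap := h
       map_zero_left := fun u => rfl
       map_one_left := fun u => hconst u }⟩
  have hmap := hHM (ZMod 2) (Sph 2) (PN 2) α _ hhom 2
  rw [hmap] at hinj
  have : Subsingleton (HH (ZMod 2) 2 Unit) := hO (ZMod 2) Unit 1
  obtain ⟨z, hz⟩ := @exists_ne _ (hSP.1 2) (0 : HH (ZMod 2) 2 (Sph 2))
  apply hz
  apply hinj
  rw [map_zero]
  have hfac : ContinuousMap.const (Sph 2) (h (1, u0)) =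
      (ContinuousMap.const Unit (h (1, u0))).comp (ContinuousMap.const (Sph 2) ()) := rfl
  rw [hfac, HH.map_comp, Subsingleton.elim (HH.map (ZMod 2) 2 (ContinuousMap.const (Sph 2) ()) z) 0,
    map_zero]

end Pool.Agent.H39.KU
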